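import Mathlib

/-!
# Splitting a prime `p = k + 2 ^ a`, and roots of unity for the power map `x ↦ x ^ k`
-/

set_option autoImplicit false

namespace Pool.Agent.H62.MS

theorem not_two_pow_dvd {M b c a : ℕ} (hc : Odd c) (hM : M = 2 ^ b * c) (hba : b + 1 ≤ a) :
    ¬ 2 ^ a ∣ M := by
  intro h
  have h1 : 2 ^ (b + 1) ∣ 2 ^ b * c := hM ▸ (pow_dvd_pow 2 hba).trans h
  rw [pow_succ] at h1
  have h2 : 2 ∣ c := Nat.dvd_of_mul_dvd_mul_left (by positivity) h1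
  rw [← Nat.not_even_iff_odd] at hc
  exact hc (even_iff_two_dvd.2 h2)

theorem exists_split (p : ℕ) (hp : p.Prime) (h1 : ∀ a : ℕ, p ≠ 2 ^ a + 1)
    (h2 : ∀ a : ℕ, p + 1 ≠ 2 ^ a) :
    ∃ a k : ℕ, 1 ≤ a ∧ p = k + 2 ^ a ∧ Odd k ∧ ¬ 2 ^ a ∣ k - 1 ∧ ¬ 2 ^ a ∣ k + 1 := by
  have hp2 : p ≠ 2 := by
    have := h1 0
    simpa using this
  have hp3 : 3 ≤ p := by
    have := hp.two_le
    omega
  have hodd : Odd p := hp.odd_of_ne_two hp2
  obtain ⟨b, c, hc, hbc⟩ := Nat.exists_eq_two_pow_mul_odd (n := p - 1) (by omega)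
  obtain ⟨b', c', hc', hbc'⟩ := Nat.exists_eq_two_pow_mul_odd (n := p + 1) (by omega)
  have hc1 : c ≠ 1 := by
    rintro rfl
    exact h1 b (by omega)
  have hc1' : c' ≠ 1 := by
    rintro rfl
    exact h2 b' (by omega)
  have hc3 : 3 ≤ c := by
    obtain ⟨m, hm⟩ := hc
    omega
  have hc3' : 3 ≤ c' := by
    obtain ⟨m, hm⟩ := hc'
    omega
  have hlt : 2 ^ (b + 1) < p := by
    have : 2 ^ b * 3 ≤ 2 ^ b * c := Nat.mul_le_mul_left _ hc3
    rw [pow_succ]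
    have : 0 < 2 ^ b := by positivity
    omega
  have hlt' : 2 ^ (b' + 1) < p := by
    have : 2 ^ b' * 3 ≤ 2 ^ b' * c' := Nat.mul_le_mul_left _ hc3'
    rw [pow_succ]
    have : 0 < 2 ^ b' := by positivity
    omega
  have hmax : 2 ^ (max b b' + 1) < p := by
    rcases le_total b b' with h | h
    · rw [max_eq_right h]; exact hlt'
    · rw [max_eq_left h]; exact hlt
  have e1 : Even (2 ^ (max b b' + 1)) := ⟨2 ^ max b b', by rw [pow_succ]; ring⟩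
  refine ⟨max b b' + 1, p - 2 ^ (max b b' + 1), by omega, by omega, ?_, ?_, ?_⟩
  · rw [Nat.odd_sub hmax.le]
    simp [hodd, e1]
  · intro hd
    have h3 : 2 ^ (max b b' + 1) ∣ p - 1 := by
      have h4 := Nat.dvd_add hd (dvd_refl (2 ^ (max b b' + 1)))
      have h5 : p - 2 ^ (max b b' + 1) - 1 + 2 ^ (max b b' + 1) = p - 1 := by omega
      rwa [h5] at h4
    exact not_two_pow_dvd hc hbc (by have := le_max_left b b'; omega) h3
  · intro hd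
    have h3 : 2 ^ (max b b' + 1) ∣ p + 1 := by
      have h4 := Nat.dvd_add hd (dvd_refl (2 ^ (max b b' + 1)))
      have h5 : p - 2 ^ (max b b' + 1) + 1 + 2 ^ (max b b' + 1) = p + 1 := by omega
      rwa [h5] at h4
    exact not_two_pow_dvd hc' hbc' (by have := le_max_right b b'; omega) h3

/-- a complex number `ζ ≠ ±1` of order a divisor of `2 ^ a` with `ζ ^ M = -1` -/
theorem exists_root (M a : ℕ) (hM : M ≠ 0) (hM2 : Even M) (h : ¬ 2 ^ a ∣ M) :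
    ∃ ζ : ℂ, ζ ^ 2 ^ a = 1 ∧ ζ + 1 ≠ 0 ∧ ζ - 1 ≠ 0 ∧ ζ ^ M = -1 := by
  obtain ⟨b, c, hc, hbc⟩ := Nat.exists_eq_two_pow_mul_odd hM
  have hb1 : b ≠ 0 := by
    rintro rfl
    rw [pow_zero, one_mul] at hbc
    rw [hbc] at hM2
    exact (Nat.not_even_iff_odd.2 hc) hM2
  have hba : b + 1 ≤ a := by
    by_contra hcon
    apply h
    rw [hbc]
    exact Dvd.dvd.mul_right (pow_dvd_pow 2 (by omega)) c
  obtain ⟨ζ, hζ⟩ := IsAlgClosed.exists_pow_nat_eq (-1 : ℂ) (n := 2 ^ b) (by positivity)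
  have hE : Even (2 ^ b) := (Nat.even_pow.2 ⟨even_two, hb1⟩)
  refine ⟨ζ, ?_, ?_, ?_, ?_⟩
  · have e : 2 ^ a = 2 ^ b * 2 * 2 ^ (a - (b + 1)) := by
      rw [← pow_succ, ← pow_add]
      congr 1
      omega
    rw [e, pow_mul, pow_mul, hζ]
    norm_num
  · intro h0
    have h1 : ζ = -1 := by linear_combination h0
    rw [h1, hE.neg_one_pow] at hζ
    norm_num at hζ
  · intro h0
    have h1 : ζ = 1 := by linear_combination h0
    rw [h1, one_pow] at hζ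
    norm_num at hζ
  · rw [hbc, pow_mul, hζ, hc.neg_one_pow]

theorem exists_zeta (k a : ℕ) (_ha : 1 ≤ a) (hk : Odd k) (h : ¬ 2 ^ a ∣ k - 1)
    (h' : ¬ 2 ^ a ∣ k + 1) :
    ∃ ζ η : ℂ, ζ ^ 2 ^ a = 1 ∧ η ^ 2 ^ a = 1 ∧ ζ + 1 ≠ 0 ∧ ζ - 1 ≠ 0 ∧ η + 1 ≠ 0 ∧ η - 1 ≠ 0 ∧
      ∀ n : ℕ, Odd n → ζ ^ k ^ n = -ζ ∧ η ^ k ^ n = -η⁻¹ := by
  have hk1 : k - 1 ≠ 0 := by
    intro h0
    rw [h0] at h
    exact h (dvd_zero _)
  have hE : Even (k - 1) := by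
    obtain ⟨m, hm⟩ := hk
    exact ⟨m, by omega⟩
  have hE' : Even (k + 1) := hk.add_one
  obtain ⟨ζ, z1, z2, z3, z4⟩ := exists_root (k - 1) a hk1 hE h
  obtain ⟨η, y1, y2, y3, y4⟩ := exists_root (k + 1) a (by omega) hE' h'
  have hη0 : η ≠ 0 := by
    rintro rfl
    rw [zero_pow (by omega)] at y4
    norm_num at y4
  have zk : ζ ^ k = -ζ := by
    have e : k = k - 1 + 1 := by omega
    rw [e, pow_succ, z4]
    ring
  have yk : η ^ k = -η⁻¹ := by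
    rw [pow_succ] at y4
    field_simp
    linear_combination y4
  have zk2 : ζ ^ k ^ 2 = ζ := by
    rw [pow_two, pow_mul, zk, hk.neg_pow, zk, neg_neg]
  have yk2 : η ^ k ^ 2 = η := by
    rw [pow_two, pow_mul, yk, hk.neg_pow, inv_pow, yk, inv_neg, neg_neg, inv_inv]
  refine ⟨ζ, η, z1, y1, z2, z3, y2, y3, ?_⟩
  intro n hn
  obtain ⟨m, rfl⟩ := hn
  induction m with
  | zero => simpa using ⟨zk, yk⟩
  | succ m ih =>
    have e : k ^ (2 * (m + 1) + 1) = k ^ 2 * k ^ (2 * m + 1) := by ring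
    rw [e, pow_mul, pow_mul, zk2, yk2]
    exact ih

end Pool.Agent.H62.MS
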